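import Mathlib

/-!
Project PRIMVAR (problem MP_6f5fa7_al, primitive varieties of groups): a soluble variety of
groups is primitive if and only if it has finite exponent and every finite minimal non-abelian
group in it has trivial centre.  Definitions and task statements.
-/

set_option autoImplicit false

namespace Pool.Agent.H862R3.Prim

/-- The group `G` lies in the variety defined by the set of laws `W`. -/
def Laws (W : Set (FreeGroup ℕ)) (G : Type) [Group G] : Prop :=
  ∀ w ∈ W, ∀ f : ℕ → G, FreeGroup.lift f w = 1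

/-- A quasi-identity `u₁ = 1 ∧ ⋯ ∧ uₖ = 1 → u = 1`. -/
structure QI where
  /-- the premises -/
  prem : List (FreeGroup ℕ)
  /-- the conclusion -/
  concl : FreeGroup ℕ

/-- The quasi-identity `q` holds in `G`. -/
def QI.Holds (q : QI) (G : Type) [Group G] : Prop :=
  ∀ f : ℕ → G, (∀ u ∈ q.prem, FreeGroup.lift f u = 1) → FreeGroup.lift f q.concl = 1

/-- The group `G` lies in the quasivariety defined by the set of quasi-identities `Φ`. -/
def Quasi (Φ : Set QI) (G : Type) [Group G] : Prop := ∀ q ∈ Φ, q.Holds G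

/-- The variety defined by `W` is primitive: every quasivariety contained in it is closed under
homomorphic images. -/
def Primitive (W : Set (FreeGroup ℕ)) : Prop :=
  ∀ Φ : Set QI, (∀ (G : Type) [Group G], Quasi Φ G → Laws W G) →
    ∀ (G H : Type) [Group G] [Group H] (f : G →* H), Function.Surjective f →
      Quasi Φ G → Quasi Φ H

/-- The variety defined by `W` has finite exponent. -/
def FinExp (W : Set (FreeGroup ℕ)) : Prop :=
  ∃ n : ℕ, 0 < n ∧ ∀ (G : Type) [Group G], Laws W G → ∀ g : G, g ^ n = 1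

/-- The variety defined by `W` is soluble. -/
def Soluble (W : Set (FreeGroup ℕ)) : Prop :=
  ∃ d : ℕ, ∀ (G : Type) [Group G], Laws W G → derivedSeries G d = ⊥

/-- `H` is not abelian, but all its proper subgroups are. -/
def MinNonab (H : Type) [Group H] : Prop :=
  (¬ ∀ x y : H, x * y = y * x) ∧
    ∀ K : Subgroup H, K ≠ ⊤ → ∀ x ∈ K, ∀ y ∈ K, x * y = y * x

/-- every finite minimal non-abelian group in the variety has trivial centre. -/
def CondC (W : Set (FreeGroup ℕ)) : Prop :=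
  ∀ (H : Type) [Group H] [Finite H], Laws W H → MinNonab H → Subgroup.center H = ⊥

/-- elements of `M` commute. -/
def Comm {G : Type} [Group G] (M : Subgroup G) : Prop := ∀ x ∈ M, ∀ y ∈ M, x * y = y * x

/-- TASK G (Gaschütz). -/
def TaskG : Prop :=
  ∀ (G : Type) [Group G] [Finite G] (N Q : Subgroup G) (q : ℕ), q.Prime → N.Normal → N ≤ Q →
    Comm Q → (∀ x ∈ Q, x ^ q = 1) → Nat.Coprime q Q.index →
    ∃ K : Subgroup G, Subgroup.IsComplement' N K

/-- TASK M1 (Maschke, for a section `X / Y` killed by `q`). -/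
def TaskM1 : Prop :=
  ∀ (A K : Type) [AddCommGroup A] [Finite A] [Group K] [Finite K] [DistribMulAction K A]
    (q : ℕ), q.Prime → Nat.Coprime q (Nat.card K) → ∀ X R Y : AddSubgroup A,
    (∀ k : K, ∀ x ∈ X, k • x ∈ X) → (∀ k : K, ∀ x ∈ R, k • x ∈ R) →
    (∀ k : K, ∀ x ∈ Y, k • x ∈ Y) → Y ≤ R → R ≤ X → (∀ x ∈ X, q • x ∈ Y) →
    ∃ T : AddSubgroup A, (∀ k : K, ∀ x ∈ T, k • x ∈ T) ∧ T ⊔ R = X ∧ T ⊓ R = Y

/-- conclusion of the module lemma. -/
def ModLemma : Prop :=
  ∀ (A K : Type) [AddCommGroup A] [Finite A] [Group K] [Finite K] [DistribMulAction K A]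
    (q e : ℕ), q.Prime → (∀ a : A, q ^ e • a = 0) → Nat.Coprime q (Nat.card K) →
    ∀ N : AddSubgroup A, (∀ k : K, ∀ x ∈ N, k • x ∈ N) → ∀ a : A, a ∉ N →
    ∃ φ : A →+ A, (∀ (k : K) (x : A), φ (k • x) = k • φ x) ∧ (∀ x ∈ N, φ x = 0) ∧ φ a ≠ 0

/-- TASK M2 (module lemma from Maschke). -/
def TaskM2 : Prop := TaskM1 → ModLemma

/-- TASK B (normal abelian Sylow subgroup). -/
def TaskB : Prop :=
  ModLemma → ∀ (G : Type) [Group G] [Finite G] (q : ℕ) (Q N : Subgroup G), q.Prime →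
    Q.Normal → N.Normal → N ≤ Q → Comm Q → (∀ x ∈ Q, ∃ k : ℕ, x ^ q ^ k = 1) →
    Nat.Coprime q Q.index → ∀ g : G, g ∉ N → ∃ f : G →* G, (∀ x ∈ N, f x = 1) ∧ f g ≠ 1

/-- the elements of `q`-power order of the finite groups in the variety `W` centralise the normal
elementary abelian `p`-subgroups, `p ≠ q`. -/
def Triv (W : Set (FreeGroup ℕ)) (q : ℕ) : Prop :=
  ∀ (G : Type) [Group G] [Finite G], Laws W G → ∀ M : Subgroup G, M.Normal → Comm M →
    ∀ p : ℕ, p.Prime → p ≠ q → (∀ x ∈ M, x ^ p = 1) →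
    ∀ x : G, (∃ k : ℕ, x ^ q ^ k = 1) → ∀ m ∈ M, x * m = m * x

/-- TASK A (trivial action). -/
def TaskA : Prop :=
  ∀ W : Set (FreeGroup ℕ), CondC W → ∀ q : ℕ, q.Prime →
    (∃ (G : Type) (_ : Group G) (g : G), Laws W G ∧ orderOf g = q ^ 2) → Triv W q

/-- TASK E (elementary abelian normal subgroups of soluble groups). -/
def TaskE : Prop :=
  ∀ (G : Type) [Group G] [Finite G] (L : Subgroup G), Group.IsSolvable G → L.Normal → L ≠ ⊥ →
    ∃ N : Subgroup G, N ≤ L ∧ N ≠ ⊥ ∧ N.Normal ∧ Comm N ∧ ∃ q : ℕ, q.Prime ∧ ∀ x ∈ N, x ^ q = 1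

/-- TASK Q (`q`-closedness; uses E). -/
def TaskQ : Prop :=
  TaskE → ∀ (W : Set (FreeGroup ℕ)) (q : ℕ), q.Prime → Triv W q →
    ∀ (G : Type) [Group G] [Finite G], Group.IsSolvable G → Laws W G →
      ∃ Q : Subgroup G, Q.Normal ∧ (∀ x ∈ Q, ∃ k : ℕ, x ^ q ^ k = 1) ∧ Nat.Coprime q Q.index

/-- TASK P (finite `p`-groups in the variety are abelian). -/
def TaskP : Prop :=
  ∀ W : Set (FreeGroup ℕ), CondC W → ∀ (G : Type) [Group G] [Finite G], Laws W G →
    ∀ q : ℕ, q.Prime → ∀ Q : Subgroup G, (∀ x ∈ Q, ∃ k : ℕ, x ^ q ^ k = 1) → Comm Q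

/-- TASK F (finitely generated soluble groups of finite exponent are finite). -/
def TaskF : Prop :=
  ∀ (d n : ℕ), 0 < n → ∀ (G : Type) [Group G] [Group.FG G], (∀ g : G, g ^ n = 1) →
    derivedSeries G d = ⊥ → Finite G

/-- TASK N1 (a primitive variety has finite exponent). -/
def TaskN1 : Prop := ∀ W : Set (FreeGroup ℕ), Primitive W → FinExp W

/-- TASK N2 (the minimal non-abelian groups in a primitive variety are centreless). -/
def TaskN2 : Prop := ∀ W : Set (FreeGroup ℕ), Primitive W → CondC W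

end Pool.Agent.H862R3.Prim
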