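import Mathlib
import Pool.Agent.H862R3.Prim.Stmts

/-!
Project PRIMVAR, second part (locally finite varieties): a locally finite variety of groups is
primitive iff `CondC` and `CondD` hold.
-/

set_option autoImplicit false

namespace Pool.Agent.H862R3.Prim

/-- The variety is locally finite. -/
def LocFin (W : Set (FreeGroup ℕ)) : Prop :=
  ∀ (G : Type) [Group G] [Group.FG G], Laws W G → Finite G

/-- `P` is a minimal normal subgroup. -/
def MinNormal {X : Type} [Group X] (P : Subgroup X) : Prop :=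
  P.Normal ∧ P ≠ ⊥ ∧ ∀ K : Subgroup X, K.Normal → K ≤ P → K ≠ ⊥ → K = P

/-- If `P` is a non-abelian minimal normal subgroup of a finite group `X` of the variety and
`X / P` is cyclic of prime power order, then `C_X(P) = 1` or `X = P C_X(P)`. -/
def CondD (W : Set (FreeGroup ℕ)) : Prop :=
  ∀ (X : Type) [Group X] [Finite X], Laws W X → ∀ P : Subgroup X, MinNormal P → ¬ Comm P →
    ∀ (x : X) (q a : ℕ), q.Prime → x ^ q ^ a ∈ P → P ⊔ Subgroup.zpowers x = ⊤ →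
      Subgroup.centralizer (P : Set X) = ⊥ ∨ P ⊔ Subgroup.centralizer (P : Set X) = ⊤

/-- there is an element of order `q²` in some group of the variety. -/
def HasOrd (W : Set (FreeGroup ℕ)) (q : ℕ) : Prop :=
  ∃ (G : Type) (_ : Group G) (g : G), Laws W G ∧ orderOf g = q ^ 2

/-- `q`-elements centralise the abelian `p`-subgroups which they normalise. -/
def Triv2 (W : Set (FreeGroup ℕ)) (q : ℕ) : Prop :=
  ∀ (G : Type) [Group G] [Finite G], Laws W G → ∀ M : Subgroup G, Comm M →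
    ∀ p : ℕ, p.Prime → p ≠ q → (∀ x ∈ M, ∃ k : ℕ, x ^ p ^ k = 1) →
    ∀ x : G, (∃ k : ℕ, x ^ q ^ k = 1) → (∀ m ∈ M, x * m * x⁻¹ ∈ M) → ∀ m ∈ M, x * m = m * x

/-- TASK A2. -/
def TaskA2 : Prop :=
  ∀ W : Set (FreeGroup ℕ), CondC W → ∀ q : ℕ, q.Prime → HasOrd W q → Triv2 W q

/-- TASK G2 (Gaschütz, general abelian Sylow subgroup). -/
def TaskG2 : Prop :=
  ∀ (G : Type) [Group G] [Finite G] (N Q H : Subgroup G) (q : ℕ), q.Prime → N.Normal →
    H ≤ Q → N ⊔ H = Q → N ⊓ H = ⊥ → Comm Q → (∀ x ∈ Q, ∃ k : ℕ, x ^ q ^ k = 1) →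
    Nat.Coprime q Q.index → ∃ K : Subgroup G, Subgroup.IsComplement' N K

/-- TASK T (transfer). -/
def TaskT : Prop :=
  ∀ (G : Type) [Group G] [Finite G] (Q : Subgroup G) (q : ℕ), q.Prime → Comm Q →
    (∀ x ∈ Q, ∃ k : ℕ, x ^ q ^ k = 1) → Nat.Coprime q Q.index →
    ∀ z : G, z ∈ Subgroup.center G → z ∈ commutator G → (∃ k : ℕ, z ^ q ^ k = 1) → z = 1

/-- separation lemma (follows from primitivity). -/
def SepLemma : Prop :=
  ∀ W : Set (FreeGroup ℕ), Primitive W → ∀ (H L : Type) [Group H] [Group L] [Finite L]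
    (s : H × H →* L), Function.Surjective s → Laws W H →
    ∀ c : L, (∀ F : L →* H, F c = 1) → c = 1

/-- TASK N3 (necessity of `CondD`). -/
def TaskN3 : Prop := SepLemma → ∀ W : Set (FreeGroup ℕ), Primitive W → CondD W

/-- TASK S (direct factors in a non-abelian minimal normal subgroup). -/
def TaskS : Prop :=
  ∀ (X : Type) [Group X] [Finite X] (P : Subgroup X), MinNormal P → ¬ Comm P →
    ∀ R : Subgroup X, R ≤ P → (∀ p ∈ P, ∀ r ∈ R, p * r * p⁻¹ ∈ R) →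
      R ⊓ Subgroup.centralizer (R : Set X) = ⊥ ∧
        R ⊔ (P ⊓ Subgroup.centralizer (R : Set X)) = P

/-- `q`-elements induce inner automorphisms on non-abelian minimal normal subgroups. -/
def DInner (W : Set (FreeGroup ℕ)) (q : ℕ) : Prop :=
  ∀ (X : Type) [Group X] [Finite X], Laws W X → ∀ P : Subgroup X, MinNormal P → ¬ Comm P →
    ∀ x : X, (∃ k : ℕ, x ^ q ^ k = 1) → x ∈ P ⊔ Subgroup.centralizer (P : Set X)

/-- TASK D2. -/
def TaskD2 : Prop :=
  TaskS → ∀ W : Set (FreeGroup ℕ), CondD W → ∀ q : ℕ, q.Prime → HasOrd W q → DInner W q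

/-- finite `s`-subgroups are abelian. -/
def AbSyl (W : Set (FreeGroup ℕ)) : Prop :=
  ∀ (G : Type) [Group G] [Finite G], Laws W G → ∀ s : ℕ, s.Prime →
    ∀ Q : Subgroup G, (∀ x ∈ Q, ∃ k : ℕ, x ^ s ^ k = 1) → Comm Q

/-- `G` has a normal Sylow `q`-subgroup. -/
def QClosed (q : ℕ) (G : Type) [Group G] : Prop :=
  ∃ Q : Subgroup G, Q.Normal ∧ (∀ x ∈ Q, ∃ k : ℕ, x ^ q ^ k = 1) ∧ Nat.Coprime q Q.index

/-- TASK I (the monolith `M / L` is not abelian). -/
def TaskI : Prop :=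
  TaskG2 → TaskT → ∀ (W : Set (FreeGroup ℕ)) (q : ℕ), q.Prime → Triv2 W q → DInner W q →
    AbSyl W → ∀ (G : Type) [Group G] [Finite G], Laws W G → ¬ QClosed q G →
    ∀ L M : Subgroup G, L.Normal → M.Normal → Comm L → L < M →
      (∀ K : Subgroup G, K.Normal → L < K → M ≤ K) →
      (∀ K : Subgroup G, K ⊔ L = ⊤ → K = ⊤) → (∃ z ∈ L, z ≠ 1 ∧ z ^ q = 1) →
      (¬ ∀ x ∈ M, ∀ y ∈ M, x * y * x⁻¹ * y⁻¹ ∈ L) → False

/-- TASK II (the monolith `M / L` is abelian). -/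
def TaskII : Prop :=
  TaskT → ∀ (W : Set (FreeGroup ℕ)) (q : ℕ), q.Prime → Triv2 W q →
    AbSyl W → ∀ (G : Type) [Group G] [Finite G], Laws W G → ¬ QClosed q G →
    ∀ L M : Subgroup G, L.Normal → M.Normal → Comm L → L < M →
      (∀ K : Subgroup G, K.Normal → L < K → M ≤ K) →
      (∀ K : Subgroup G, K ⊔ L = ⊤ → K = ⊤) →
      (∀ x ∈ M, ∀ y ∈ M, x * y * x⁻¹ * y⁻¹ ∈ L) → False

end Pool.Agent.H862R3.Prim
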