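import Mathlib
import Pool.Agent.H862R3.Prim.Stmts

/-!
Project PRIMVAR (MP_6f5fa7_al): assembly.
-/

set_option autoImplicit false

namespace Pool.Agent.H862R3.Prim

/-! ### closure properties -/

theorem lift_comp {G H : Type} [Group G] [Group H] (φ : G →* H) (f : ℕ → G) (w : FreeGroup ℕ) :
    FreeGroup.lift (fun i => φ (f i)) w = φ (FreeGroup.lift f w) := by
  have : (FreeGroup.lift (fun i => φ (f i)) : FreeGroup ℕ →* H) = φ.comp (FreeGroup.lift f) := by
    apply FreeGroup.ext_hom
    intro i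
    simp
  rw [this]; rfl

theorem Laws.of_injective {W : Set (FreeGroup ℕ)} {G H : Type} [Group G] [Group H] (φ : H →* G)
    (hφ : Function.Injective φ) (h : Laws W G) : Laws W H := by
  intro w hw f
  apply hφ
  rw [← lift_comp, map_one]
  exact h w hw _

theorem Laws.of_surjective {W : Set (FreeGroup ℕ)} {G H : Type} [Group G] [Group H] (φ : G →* H)
    (hφ : Function.Surjective φ) (h : Laws W G) : Laws W H := by
  intro w hw f
  choose g hg using fun i => hφ (f i)
  have : f = fun i => φ (g i) := by ext i; rw [hg]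
  rw [this, lift_comp, h w hw, map_one]

theorem Laws.subgroup {W : Set (FreeGroup ℕ)} {G : Type} [Group G] (h : Laws W G)
    (K : Subgroup G) : Laws W K := h.of_injective K.subtype K.subtype_injective

theorem Laws.quotient {W : Set (FreeGroup ℕ)} {G : Type} [Group G] (h : Laws W G)
    (K : Subgroup G) [K.Normal] : Laws W (G ⧸ K) :=
  h.of_surjective (QuotientGroup.mk' K) (QuotientGroup.mk'_surjective K)

theorem Laws.prod {W : Set (FreeGroup ℕ)} {G H : Type} [Group G] [Group H] (hG : Laws W G)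
    (hH : Laws W H) : Laws W (G × H) := by
  intro w hw f
  have h1 := hG w hw (fun i => (f i).1)
  have h2 := hH w hw (fun i => (f i).2)
  apply Prod.ext
  · have := lift_comp (MonoidHom.fst G H) f w
    rw [Prod.fst_one, ← h1]
    exact this.symm
  · have := lift_comp (MonoidHom.snd G H) f w
    rw [Prod.snd_one, ← h2]
    exact this.symm

theorem Quasi.of_injective {Φ : Set QI} {G H : Type} [Group G] [Group H] (φ : H →* G)
    (hφ : Function.Injective φ) (h : Quasi Φ G) : Quasi Φ H := by
  intro q hq f hf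
  apply hφ
  rw [← lift_comp, map_one]
  apply h q hq
  intro u hu
  rw [lift_comp, hf u hu, map_one]

theorem Quasi.subgroup {Φ : Set QI} {G : Type} [Group G] (h : Quasi Φ G)
    (K : Subgroup G) : Quasi Φ K := h.of_injective K.subtype K.subtype_injective

/-- Separation by endomorphisms. -/
theorem Quasi.of_sep {Φ : Set QI} {G : Type} [Group G] (h : Quasi Φ G) (N : Subgroup G)
    [N.Normal] (hsep : ∀ g : G, g ∉ N → ∃ f : G →* G, (∀ x ∈ N, f x = 1) ∧ f g ≠ 1) :
    Quasi Φ (G ⧸ N) := by
  intro q hq a ha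
  by_contra hne
  obtain ⟨g, hg⟩ := QuotientGroup.mk'_surjective N (FreeGroup.lift a q.concl)
  have hgN : g ∉ N := by
    intro hgN
    apply hne
    rw [← hg]
    exact (QuotientGroup.eq_one_iff g).2 hgN
  obtain ⟨f, hf, hfg⟩ := hsep g hgN
  let F : G ⧸ N →* G := QuotientGroup.lift N f hf
  have h1 : FreeGroup.lift (fun i => F (a i)) q.concl = 1 := by
    apply h q hq
    intro u hu
    rw [lift_comp, ha u hu, map_one]
  rw [lift_comp, ← hg] at h1
  exact hfg h1

/-- `G ⧸ N` embeds in `G` when `N` has a complement. -/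
theorem Quasi.of_compl {Φ : Set QI} {G : Type} [Group G] (h : Quasi Φ G) (N K : Subgroup G)
    [N.Normal] (hK : Subgroup.IsComplement' N K) : Quasi Φ (G ⧸ N) := by
  have e : G ⧸ N ≃* K := by
    have := hK.symm
    exact this.QuotientMulEquiv
  exact (h.subgroup K).of_injective e.toMonoidHom e.injective

/-! ### the finite case -/

theorem step (hG : TaskG) (hMod : ModLemma) (hB : TaskB) (hA : TaskA) (hE : TaskE) (hQ : TaskQ)
    (hP : TaskP) {W : Set (FreeGroup ℕ)} (hC : CondC W) {Φ : Set QI}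
    {G : Type} [Group G] [Finite G] (hs : Group.IsSolvable G) (hW : Laws W G) (hΦ : Quasi Φ G)
    (N : Subgroup G) [N.Normal] (q : ℕ) (hq : q.Prime) (hN : ∀ x ∈ N, x ^ q = 1) :
    Quasi Φ (G ⧸ N) := by
  have := Fact.mk hq
  -- a Sylow subgroup containing `N`
  have hNp : IsPGroup q N := by
    intro x
    refine ⟨1, ?_⟩
    ext
    simpa using hN x x.2
  obtain ⟨Q, hNQ⟩ := hNp.exists_le_sylow
  have hQpow : ∀ x ∈ (Q : Subgroup G), ∃ k : ℕ, x ^ q ^ k = 1 := by
    intro x hx
    obtain ⟨k, hk⟩ := Q.isPGroup' ⟨x, hx⟩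
    exact ⟨k, by simpa using congrArg Subtype.val hk⟩
  have hQc : Comm (Q : Subgroup G) := hP W hC G hW q hq Q hQpow
  have hcop : Nat.Coprime q (Q : Subgroup G).index := by
    rw [Nat.Prime.coprime_iff_not_dvd hq]
    exact Q.not_dvd_index
  by_cases hel : ∀ x ∈ (Q : Subgroup G), x ^ q = 1
  · obtain ⟨K, hK⟩ := hG G N Q q hq inferInstance hNQ hQc hel hcop
    exact hΦ.of_compl N K hK
  · push Not at hel
    obtain ⟨x, hx, hxq⟩ := hel
    have hex : ∃ (G : Type) (_ : Group G) (g : G), Laws W G ∧ orderOf g = q ^ 2 := by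
      obtain ⟨k, hk⟩ := hQpow x hx
      have hdvd : orderOf x ∣ q ^ k := orderOf_dvd_of_pow_eq_one hk
      obtain ⟨j, hj, hjx⟩ := (Nat.dvd_prime_pow hq).1 hdvd
      have h2 : 2 ≤ j := by
        by_contra hlt
        push Not at hlt
        apply hxq
        apply orderOf_dvd_iff_pow_eq_one.1
        rw [hjx]
        calc q ^ j ∣ q ^ 1 := pow_dvd_pow q (by omega)
          _ = q := pow_one q
      refine ⟨G, inferInstance, x ^ q ^ (j - 2), hW, ?_⟩
      rw [orderOf_pow_of_dvd (pow_ne_zero _ hq.ne_zero) (by rw [hjx]; exact pow_dvd_pow q (by omega)),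
        hjx]
      rw [Nat.pow_div (by omega) hq.pos]
      congr 1
      omega
    obtain ⟨Q', hQ'n, hQ'pow, hQ'cop⟩ := hQ hE W q hq (hA W hC q hq hex) G hs hW
    have hQ'c : Comm Q' := hP W hC G hW q hq Q' hQ'pow
    have hNQ' : N ≤ Q' := by
      intro y hy
      have h1 : (QuotientGroup.mk' Q' y) ^ q = 1 := by
        rw [← map_pow, hN y hy, map_one]
      have h2 : (QuotientGroup.mk' Q' y) ^ Q'.index = 1 := by
        rw [Subgroup.index]
        exact pow_card_eq_one'
      have h3 : orderOf (QuotientGroup.mk' Q' y) ∣ 1 := by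
        have h4 := Nat.dvd_gcd (orderOf_dvd_of_pow_eq_one h1) (orderOf_dvd_of_pow_eq_one h2)
        rwa [hQ'cop] at h4
      have h5 : QuotientGroup.mk' Q' y = 1 := by
        rw [← orderOf_eq_one_iff]
        exact Nat.dvd_one.1 h3
      exact (QuotientGroup.eq_one_iff y).1 h5
    exact hΦ.of_sep N (hB hMod G q Q' N hq hQ'n inferInstance hNQ' hQ'c hQ'pow hQ'cop)

theorem finite_case (hG : TaskG) (hMod : ModLemma) (hB : TaskB) (hA : TaskA) (hE : TaskE)
    (hQ : TaskQ) (hP : TaskP) {W : Set (FreeGroup ℕ)} (hC : CondC W) {Φ : Set QI} :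
    ∀ (n : ℕ) (G : Type) [Group G] [Finite G], Nat.card G = n → Group.IsSolvable G → Laws W G →
      Quasi Φ G → ∀ (L : Subgroup G) [L.Normal], Quasi Φ (G ⧸ L) := by
  intro n
  induction n using Nat.strong_induction_on with
  | _ n ih =>
    intro G _ _ hn hs hW hΦ L hLn
    by_cases hL : L = ⊥
    · subst hL
      exact hΦ.of_injective (QuotientGroup.quotientBot (G := G)).toMonoidHom
        (QuotientGroup.quotientBot (G := G)).injective
    · obtain ⟨N, hNL, hN0, hNn, hNc, q, hq, hNq⟩ := hE G L hs hLn hL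
      have h1 : Quasi Φ (G ⧸ N) := step hG hMod hB hA hE hQ hP hC hs hW hΦ N q hq hNq
      have hcard : Nat.card (G ⧸ N) < n := by
        rw [← hn, ← Subgroup.index, ← N.index_mul_card]
        have hi : 0 < N.index := Nat.pos_of_ne_zero Subgroup.index_ne_zero_of_finite
        have hc : 1 < Nat.card N := by
          rw [Subgroup.one_lt_card_iff_ne_bot]
          exact hN0
        nlinarith
      have hs' : Group.IsSolvable (G ⧸ N) := inferInstance
      have h2 := ih _ hcard (G ⧸ N) rfl hs' (hW.quotient N) h1 (L.map (QuotientGroup.mk' N))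
      let e := QuotientGroup.quotientQuotientEquivQuotient N L hNL
      exact h2.of_injective e.symm.toMonoidHom e.symm.injective

/-! ### reduction to the finite case -/

theorem exists_support (w : FreeGroup ℕ) : ∃ S : Finset ℕ, ∀ (G : Type) [Group G] (f g : ℕ → G),
    (∀ i ∈ S, f i = g i) → FreeGroup.lift f w = FreeGroup.lift g w := by
  induction w using FreeGroup.induction_on with
  | C1 => exact ⟨∅, by intros; simp⟩
  | of i => exact ⟨{i}, by intro G _ f g h; simpa using h i (by simp)⟩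
  | inv_of i _ => exact ⟨{i}, by intro G _ f g h; simpa using h i (by simp)⟩
  | mul x y hx hy =>
    classical
    obtain ⟨S, hS⟩ := hx
    obtain ⟨T, hT⟩ := hy
    refine ⟨S ∪ T, ?_⟩
    intro G _ f g h
    rw [map_mul, map_mul, hS G f g (fun i hi => h i (Finset.mem_union_left _ hi)),
      hT G f g (fun i hi => h i (Finset.mem_union_right _ hi))]

theorem sufficiency (hG : TaskG) (hMod : ModLemma) (hB : TaskB) (hA : TaskA) (hE : TaskE)
    (hQ : TaskQ) (hP : TaskP) (hF : TaskF) (W : Set (FreeGroup ℕ)) (hsol : Soluble W)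
    (hexp : FinExp W) (hC : CondC W) : Primitive W := by
  classical
  intro Φ hΦW G H _ _ φ hφ hΦ q hq a ha
  obtain ⟨d, hd⟩ := hsol
  obtain ⟨n, hn, hexp⟩ := hexp
  choose S hS using exists_support
  let T : Finset ℕ := S q.concl ∪ (q.prem.toFinset.biUnion S)
  choose g hg using hφ
  let b : ℕ → G := fun i => if i ∈ T then g (a i) else 1
  let a' : ℕ → H := fun i => φ (b i)
  have haa : ∀ i ∈ T, a' i = a i := by
    intro i hi
    simp only [a', b, if_pos hi, hg]
  have hconcl : FreeGroup.lift a q.concl = FreeGroup.lift a' q.concl :=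
    hS _ H a a' (fun i hi => (haa i (Finset.mem_union_left _ hi)).symm)
  have hprem : ∀ u ∈ q.prem, FreeGroup.lift a' u = 1 := by
    intro u hu
    rw [← ha u hu]
    exact hS _ H a' a (fun i hi => haa i (Finset.mem_union_right _
      (Finset.mem_biUnion.2 ⟨u, List.mem_toFinset.2 hu, hi⟩)))
  rw [hconcl]
  -- the finitely generated subgroup
  let G₀ : Subgroup G := Subgroup.closure (b '' (T : Set ℕ))
  have hfg : Group.FG G₀ := by
    rw [Group.fg_iff_subgroup_fg]
    exact ⟨T.image b, by simp [G₀]⟩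
  have hb : ∀ i, b i ∈ G₀ := by
    intro i
    by_cases hi : i ∈ T
    · exact Subgroup.subset_closure ⟨i, hi, rfl⟩
    · have : b i = 1 := by simp only [b, if_neg hi]
      rw [this]
      exact one_mem _
  have hW0 : Laws W G₀ := (hΦW G hΦ).subgroup G₀
  have hder : derivedSeries G₀ d = ⊥ := hd G₀ hW0
  have hfin : Finite G₀ := hF d n hn G₀ (hexp G₀ hW0) hder
  have hsG : Group.IsSolvable G₀ := ⟨⟨d, hder⟩⟩
  let ψ : G₀ →* H := φ.comp G₀.subtype
  have hquot : Quasi Φ (G₀ ⧸ ψ.ker) :=
    finite_case hG hMod hB hA hE hQ hP hC _ G₀ rfl hsG hW0 (hΦ.subgroup G₀) ψ.ker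
  let b' : ℕ → G₀ ⧸ ψ.ker := fun i => QuotientGroup.mk' ψ.ker ⟨b i, hb i⟩
  let κ : G₀ ⧸ ψ.ker →* H := QuotientGroup.kerLift ψ
  have hκ : Function.Injective κ := QuotientGroup.kerLift_injective ψ
  have hκb : ∀ w, κ (FreeGroup.lift b' w) = FreeGroup.lift a' w := by
    intro w
    rw [← lift_comp]
    rfl
  have hfinal : FreeGroup.lift b' q.concl = 1 := by
    apply hquot q hq
    intro u hu
    apply hκ
    rw [hκb, map_one]
    exact hprem u hu
  rw [← hκb, hfinal, map_one]

/-- The classification of the soluble primitive varieties, from the tasks. -/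
theorem final (hG : TaskG) (hM1 : TaskM1) (hM2 : TaskM2) (hB : TaskB) (hA : TaskA) (hE : TaskE)
    (hQ : TaskQ) (hP : TaskP) (hF : TaskF) (hN1 : TaskN1) (hN2 : TaskN2) :
    (∀ W : Set (FreeGroup ℕ), Primitive W → FinExp W ∧ CondC W) ∧
      ∀ W : Set (FreeGroup ℕ), Soluble W → FinExp W → CondC W → Primitive W :=
  ⟨fun W h => ⟨hN1 W h, hN2 W h⟩,
    fun W h1 h2 h3 => sufficiency hG (hM2 hM1) hB hA hE hQ hP hF W h1 h2 h3⟩

end Pool.Agent.H862R3.Prim
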