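import Mathlib
import Pool.Agent.H862R3.Prim.Stmts
import Pool.Agent.H862R3.Prim.Stmts2
import Pool.Agent.H862R3.Prim.Asm

/-!
Project PRIMVAR (MP_6f5fa7_al): assembly for locally finite varieties.
-/

set_option autoImplicit false

namespace Pool.Agent.H862R3.Prim

open scoped commutatorElement

/-- Separation by homomorphisms to various groups. -/
theorem quasi_of_sep' {Φ : Set QI} {G : Type} [Group G] (N : Subgroup G) [N.Normal]
    (hsep : ∀ g : G, g ∉ N → ∃ (X : Type) (_ : Group X) (f : G →* X), Quasi Φ X ∧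
      (∀ x ∈ N, f x = 1) ∧ f g ≠ 1) :
    Quasi Φ (G ⧸ N) := by
  intro q hq a ha
  by_contra hne
  obtain ⟨g, hg⟩ := QuotientGroup.mk'_surjective N (FreeGroup.lift a q.concl)
  have hgN : g ∉ N := by
    intro hgN
    apply hne
    rw [← hg]
    exact (QuotientGroup.eq_one_iff g).2 hgN
  obtain ⟨X, _, f, hX, hf, hfg⟩ := hsep g hgN
  let F : G ⧸ N →* X := QuotientGroup.lift N f hf
  have h1 : FreeGroup.lift (fun i => F (a i)) q.concl = 1 := by
    apply hX q hq
    intro u hu
    rw [lift_comp, ha u hu, map_one]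
  rw [lift_comp, ← hg] at h1
  exact hfg h1

/-- If `K ⊔ N = ⊤` then `G ⧸ N` is a quotient of `K`. -/
theorem quasi_of_sup {Φ : Set QI} {G : Type} [Group G] (N K : Subgroup G) [N.Normal]
    (hK : K ⊔ N = ⊤) (h : ∀ (R : Subgroup K) [R.Normal], Quasi Φ (K ⧸ R)) : Quasi Φ (G ⧸ N) := by
  let ψ : K →* G ⧸ N := (QuotientGroup.mk' N).comp K.subtype
  have hψ : Function.Surjective ψ := by
    intro y
    obtain ⟨g, rfl⟩ := QuotientGroup.mk'_surjective N y
    have hg : g ∈ K ⊔ N := by rw [hK]; trivial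
    rw [Subgroup.mem_sup_of_normal_right] at hg
    obtain ⟨k, hk, n, hn, rfl⟩ := hg
    refine ⟨⟨k, hk⟩, ?_⟩
    show QuotientGroup.mk' N k = _
    rw [map_mul]
    have : QuotientGroup.mk' N n = 1 := (QuotientGroup.eq_one_iff n).2 hn
    rw [this, mul_one]
  let e := QuotientGroup.quotientKerEquivOfSurjective ψ hψ
  exact (h ψ.ker).of_injective e.symm.toMonoidHom e.symm.injective

theorem nil_comm {W : Set (FreeGroup ℕ)} (hAb : AbSyl W) {G : Type} [Group G] [Finite G]
    (hW : Laws W G) (L : Subgroup G) (hL : Group.IsNilpotent L) : Comm L := by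
  have h := (Group.isNilpotent_of_finite_tfae (G := L)).out 0 4
  obtain ⟨e⟩ := h.1 hL
  have hcomm : ∀ x y : L, x * y = y * x := by
    intro x y
    apply e.symm.injective
    rw [map_mul, map_mul]
    funext p P
    have hp : (p : ℕ).Prime := Nat.prime_of_mem_primeFactors p.2
    have hPc : Comm (P : Subgroup L) := by
      apply hAb L (hW.subgroup L) p hp
      intro x hx
      obtain ⟨k, hk⟩ := P.isPGroup' ⟨x, hx⟩
      exact ⟨k, by simpa using congrArg Subtype.val hk⟩
    apply Subtype.ext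
    exact hPc _ ((e.symm x p P).2) _ ((e.symm y p P).2)
  intro x hx y hy
  exact congrArg Subtype.val (hcomm ⟨x, hx⟩ ⟨y, hy⟩)

theorem le_frattini {G : Type} [Group G] (L : Subgroup G)
    (h : ∀ K : Subgroup G, K ⊔ L = ⊤ → K = ⊤) : L ≤ frattini G := by
  rw [frattini, Order.radical]
  refine le_iInf₂ fun K hK => ?_
  by_contra hne
  have h1 : K < K ⊔ L := left_lt_sup.2 hne
  have h2 : K ⊔ L = ⊤ := hK.2 _ h1
  exact hK.1 (h K h2)

theorem nil_of_le_frattini {G : Type} [Group G] [Finite G] (L : Subgroup G)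
    (h : L ≤ frattini G) : Group.IsNilpotent L := by
  have h1 : Group.IsNilpotent (frattini G) := frattini_nilpotent
  have h2 : Group.IsNilpotent (L.subgroupOf (frattini G)) := inferInstance
  exact (Group.isNilpotent_congr (Subgroup.subgroupOfEquivOfLe h)).1 h2

theorem exists_minNormal {G : Type} [Group G] [Finite G] (L : Subgroup G) [L.Normal]
    (hL : L ≠ ⊥) : ∃ N : Subgroup G, N ≤ L ∧ MinNormal N := by
  obtain ⟨N, hN, hmin⟩ := WellFounded.has_min (wellFounded_lt (α := Subgroup G))
    {N : Subgroup G | N ≤ L ∧ N.Normal ∧ N ≠ ⊥} ⟨L, le_refl L, inferInstance, hL⟩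
  refine ⟨N, hN.1, hN.2.1, hN.2.2, ?_⟩
  intro K hK hKN hK0
  by_contra hne
  exact hmin K ⟨hKN.trans hN.1, hK, hK0⟩ (lt_of_le_of_ne hKN hne)

theorem exponent_of_minNormal {G : Type} [Group G] [Finite G] (N : Subgroup G)
    (hN : MinNormal N) (hc : Comm N) : ∃ q : ℕ, q.Prime ∧ ∀ x ∈ N, x ^ q = 1 := by
  obtain ⟨hn, h0, hmin⟩ := hN
  have hcard : Nat.card N ≠ 1 := by
    intro h1
    exact h0 (Subgroup.card_eq_one.1 h1)
  obtain ⟨q, hq, hqd⟩ := Nat.exists_prime_and_dvd hcard
  have : Fact q.Prime := ⟨hq⟩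
  obtain ⟨x, hx⟩ := exists_prime_orderOf_dvd_card' q hqd
  let N' : Subgroup G :=
    { carrier := {x | x ∈ N ∧ x ^ q = 1}
      mul_mem' := by
        rintro a b ⟨ha, ha'⟩ ⟨hb, hb'⟩
        refine ⟨mul_mem ha hb, ?_⟩
        have hc : Commute a b := hc a ha b hb
        rw [hc.mul_pow, ha', hb', one_mul]
      one_mem' := ⟨one_mem _, one_pow _⟩
      inv_mem' := by
        rintro a ⟨ha, ha'⟩
        exact ⟨inv_mem ha, by rw [inv_pow, ha', inv_one]⟩ }
  have hN' : N' = N := by
    apply hmin
    · refine ⟨?_⟩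
      rintro a ⟨ha, ha'⟩ g
      refine ⟨hn.conj_mem a ha g, ?_⟩
      rw [conj_pow, ha', mul_one, mul_inv_cancel]
    · intro y hy
      exact hy.1
    · intro h0
      have h1 : (x : G) ∈ N' := by
        refine ⟨x.2, ?_⟩
        have h2 : x ^ q = 1 := by rw [← hx]; exact pow_orderOf_eq_one x
        have h3 := congrArg (fun z : N => (z : G)) h2
        simpa using h3
      rw [h0, Subgroup.mem_bot] at h1
      have h2 : x = 1 := Subtype.ext h1
      rw [h2, orderOf_one] at hx
      exact hq.one_lt.ne hx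
  refine ⟨q, hq, fun y hy => ?_⟩
  rw [← hN'] at hy
  exact hy.2

theorem le_of_coprime {G : Type} [Group G] [Finite G] (N Q' : Subgroup G) [Q'.Normal] (q : ℕ)
    (hN : ∀ x ∈ N, x ^ q = 1) (hQ'cop : Nat.Coprime q Q'.index) : N ≤ Q' := by
  intro y hy
  have h1 : (QuotientGroup.mk' Q' y) ^ q = 1 := by
    rw [← map_pow, hN y hy, map_one]
  have h2 : (QuotientGroup.mk' Q' y) ^ Q'.index = 1 := by
    rw [Subgroup.index]
    exact pow_card_eq_one'
  have h3 : orderOf (QuotientGroup.mk' Q' y) ∣ 1 := by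
    have h4 := Nat.dvd_gcd (orderOf_dvd_of_pow_eq_one h1) (orderOf_dvd_of_pow_eq_one h2)
    rwa [hQ'cop] at h4
  have h5 : QuotientGroup.mk' Q' y = 1 := by
    rw [← orderOf_eq_one_iff]
    exact Nat.dvd_one.1 h3
  exact (QuotientGroup.eq_one_iff y).1 h5

theorem hasOrd_or_compl (hG : TaskG) {W : Set (FreeGroup ℕ)} (hAb : AbSyl W)
    {G : Type} [Group G] [Finite G] (hW : Laws W G)
    (N : Subgroup G) [N.Normal] (q : ℕ) (hq : q.Prime) (hN : ∀ x ∈ N, x ^ q = 1) :
    HasOrd W q ∨ ∃ K : Subgroup G, Subgroup.IsComplement' N K := by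
  have := Fact.mk hq
  have hNp : IsPGroup q N := by
    intro x
    refine ⟨1, ?_⟩
    ext
    simpa using hN x x.2
  obtain ⟨Q, hNQ⟩ := hNp.exists_le_sylow
  have hQpow : ∀ x ∈ (Q : Subgroup G), ∃ k : ℕ, x ^ q ^ k = 1 := by
    intro x hx
    obtain ⟨k, hk⟩ := Q.isPGroup' ⟨x, hx⟩
    exact ⟨k, by simpa using congrArg Subtype.val hk⟩
  have hQc : Comm (Q : Subgroup G) := hAb G hW q hq Q hQpow
  have hcop : Nat.Coprime q (Q : Subgroup G).index := by
    rw [Nat.Prime.coprime_iff_not_dvd hq]
    exact Q.not_dvd_index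
  by_cases hel : ∀ x ∈ (Q : Subgroup G), x ^ q = 1
  · exact Or.inr (hG G N Q q hq inferInstance hNQ hQc hel hcop)
  · left
    push Not at hel
    obtain ⟨x, hx, hxq⟩ := hel
    obtain ⟨k, hk⟩ := hQpow x hx
    have hdvd : orderOf x ∣ q ^ k := orderOf_dvd_of_pow_eq_one hk
    obtain ⟨j, hj, hjx⟩ := (Nat.dvd_prime_pow hq).1 hdvd
    have h2 : 2 ≤ j := by
      by_contra hlt
      push Not at hlt
      apply hxq
      apply orderOf_dvd_iff_pow_eq_one.1
      rw [hjx]
      calc q ^ j ∣ q ^ 1 := pow_dvd_pow q (by omega)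
        _ = q := pow_one q
    refine ⟨G, inferInstance, x ^ q ^ (j - 2), hW, ?_⟩
    rw [orderOf_pow_of_dvd (pow_ne_zero _ hq.ne_zero) (by rw [hjx]; exact pow_dvd_pow q (by omega)),
      hjx]
    rw [Nat.pow_div (by omega) hq.pos]
    congr 1
    omega

/-- The tasks, bundled. -/
structure AllTasks : Prop where
  G : TaskG
  Mod : ModLemma
  B : TaskB
  A2 : TaskA2
  G2 : TaskG2
  T : TaskT
  S : TaskS
  D2 : TaskD2
  I : TaskI
  II : TaskII

theorem lf_finite_case (T : AllTasks) {W : Set (FreeGroup ℕ)} (hAb : AbSyl W) (hC : CondC W)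
    (hD : CondD W) {Φ : Set QI} :
    ∀ (n : ℕ) (G : Type) [Group G] [Finite G], Nat.card G = n → Laws W G →
      Quasi Φ G → ∀ (L : Subgroup G) [L.Normal], Quasi Φ (G ⧸ L) := by
  intro n
  induction n using Nat.strong_induction_on with
  | _ n ih =>
    intro G _ _ hn hW hΦ L hLn
    -- proper subgroups
    have ihsub : ∀ K : Subgroup G, K ≠ ⊤ → ∀ (R : Subgroup K) [R.Normal], Quasi Φ (K ⧸ R) := by
      intro K hK
      have hcard : Nat.card K < n := by
        rw [← hn]
        exact lt_of_le_of_ne (Subgroup.card_le_card_group K)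
          (fun h => hK (Subgroup.eq_top_of_card_eq K h))
      exact ih _ hcard K rfl (hW.subgroup K) (hΦ.subgroup K)
    by_cases hL : L = ⊥
    · subst hL
      exact hΦ.of_injective (QuotientGroup.quotientBot (G := G)).toMonoidHom
        (QuotientGroup.quotientBot (G := G)).injective
    obtain ⟨N, hNL, hNmin⟩ := exists_minNormal L hL
    have hNn : N.Normal := hNmin.1
    have hN0 : N ≠ ⊥ := hNmin.2.1
    suffices h1 : Quasi Φ (G ⧸ N) by
      have hcard : Nat.card (G ⧸ N) < n := by
        rw [← hn, ← Subgroup.index, ← N.index_mul_card]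
        have hi : 0 < N.index := Nat.pos_of_ne_zero Subgroup.index_ne_zero_of_finite
        have hc : 1 < Nat.card N := by
          rw [Subgroup.one_lt_card_iff_ne_bot]
          exact hN0
        nlinarith
      have h2 := ih _ hcard (G ⧸ N) rfl (hW.quotient N) h1 (L.map (QuotientGroup.mk' N))
      let e := QuotientGroup.quotientQuotientEquivQuotient N L hNL
      exact h2.of_injective e.symm.toMonoidHom e.symm.injective
    by_cases hNc : Comm N
    · -- abelian minimal normal subgroup
      obtain ⟨q, hq, hNq⟩ := exponent_of_minNormal N hNmin hNc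
      rcases hasOrd_or_compl T.G hAb hW N q hq hNq with hord | ⟨K, hK⟩
      swap
      · exact hΦ.of_compl N K hK
      by_cases hQcl : QClosed q G
      · obtain ⟨Q', hQ'n, hQ'pow, hQ'cop⟩ := hQcl
        have hQ'c : Comm Q' := hAb G hW q hq Q' hQ'pow
        have hNQ' : N ≤ Q' := le_of_coprime N Q' q hNq hQ'cop
        exact hΦ.of_sep N (T.B T.Mod G q Q' N hq hQ'n inferInstance hNQ' hQ'c hQ'pow hQ'cop)
      · apply quasi_of_sep'
        intro g hg
        -- a maximal normal subgroup `L'` containing `N`, not containing `g`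
        obtain ⟨L', hL', hmax⟩ := WellFounded.has_min (wellFounded_gt (α := Subgroup G))
          {L' : Subgroup G | N ≤ L' ∧ L'.Normal ∧ g ∉ L'} ⟨N, le_refl N, inferInstance, hg⟩
        obtain ⟨hNL', hL'n, hgL'⟩ := hL'
        by_cases hFr : ∀ K : Subgroup G, K ⊔ L' = ⊤ → K = ⊤
        · exfalso
          have hL'c : Comm L' := nil_comm hAb hW L' (nil_of_le_frattini L' (le_frattini L' hFr))
          let M : Subgroup G := L' ⊔ Subgroup.normalClosure {g}
          have hMn : M.Normal := inferInstance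
          have hgM : g ∈ M := Subgroup.mem_sup_right
            (Subgroup.subset_normalClosure (Set.mem_singleton g))
          have hLM : L' < M := by
            refine lt_of_le_of_ne le_sup_left fun h => hgL' ?_
            rw [h]; exact hgM
          have hM : ∀ K : Subgroup G, K.Normal → L' < K → M ≤ K := by
            intro K hK hLK
            have hgK : g ∈ K := by
              by_contra hgK
              exact hmax K ⟨hNL'.trans hLK.le, hK, hgK⟩ hLK
            refine sup_le hLK.le ?_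
            exact Subgroup.normalClosure_le_normal (Set.singleton_subset_iff.2 hgK)
          have htriv : Triv2 W q := T.A2 W hC q hq hord
          by_cases hcomm : ∀ x ∈ M, ∀ y ∈ M, x * y * x⁻¹ * y⁻¹ ∈ L'
          · exact T.II T.T W q hq htriv hAb G hW hQcl L' M hL'n hMn hL'c hLM hM hFr hcomm
          · obtain ⟨z, hz1⟩ := Subgroup.ne_bot_iff_exists_ne_one.1 hN0
            refine T.I T.G2 T.T W q hq htriv (T.D2 T.S W hD q hq hord) hAb G hW hQcl L' M hL'n hMn
              hL'c hLM hM hFr ?_ hcomm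
            exact ⟨z, hNL' z.2, fun h => hz1 (Subtype.ext h), hNq z z.2⟩
        · push Not at hFr
          obtain ⟨K, hKL, hK⟩ := hFr
          refine ⟨G ⧸ L', inferInstance, QuotientGroup.mk' L',
            quasi_of_sup L' K hKL (ihsub K hK), ?_, ?_⟩
          · intro x hx
            exact (QuotientGroup.eq_one_iff x).2 (hNL' hx)
          · intro h
            exact hgL' ((QuotientGroup.eq_one_iff g).1 h)
    · -- non-abelian minimal normal subgroup: Frattini's argument
      have hcard : Nat.card N ≠ 1 := by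
        intro h1
        exact hN0 (Subgroup.card_eq_one.1 h1)
      obtain ⟨r, hr, hrd⟩ := Nat.exists_prime_and_dvd hcard
      have := Fact.mk hr
      let R : Sylow r N := default
      let K : Subgroup G := Subgroup.normalizer ((R : Subgroup N).map N.subtype : Subgroup G)
      have hKN : K ⊔ N = ⊤ := Sylow.normalizer_sup_eq_top R
      have hK : K ≠ ⊤ := by
        intro hK
        have hRn : ((R : Subgroup N).map N.subtype).Normal :=
          Subgroup.normalizer_eq_top_iff.1 hK
        have hRN : (R : Subgroup N).map N.subtype ≤ N := by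
          rintro _ ⟨z, _, rfl⟩
          exact z.2
        have hR0 : (R : Subgroup N).map N.subtype ≠ ⊥ := by
          intro h0
          rw [Subgroup.map_eq_bot_iff_of_injective _ N.subtype_injective] at h0
          exact R.ne_bot_of_dvd_card hrd h0
        have hRN' := hNmin.2.2 _ hRn hRN hR0
        apply hNc
        rw [← hRN']
        apply hAb G hW r hr
        rintro _ ⟨z, hz, rfl⟩
        obtain ⟨k, hk⟩ := R.isPGroup' ⟨z, hz⟩
        refine ⟨k, ?_⟩
        have h3 := congrArg (fun u : (R : Subgroup N) => ((u : N) : G)) hk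
        simpa using h3
      exact quasi_of_sup N K hKN (ihsub K hK)

/-! ### reduction to the finite case and the main theorem -/

theorem sufficiency2 (T : AllTasks) (hP : TaskP) (W : Set (FreeGroup ℕ)) (hlf : LocFin W)
    (hC : CondC W) (hD : CondD W) : Primitive W := by
  classical
  intro Φ hΦW G H _ _ φ hφ hΦ q hq a ha
  choose S hS using exists_support
  let F : Finset ℕ := S q.concl ∪ (q.prem.toFinset.biUnion S)
  choose g hg using hφ
  let b : ℕ → G := fun i => if i ∈ F then g (a i) else 1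
  let a' : ℕ → H := fun i => φ (b i)
  have haa : ∀ i ∈ F, a' i = a i := by
    intro i hi
    simp only [a', b, if_pos hi, hg]
  have hconcl : FreeGroup.lift a q.concl = FreeGroup.lift a' q.concl :=
    hS _ H a a' (fun i hi => (haa i (Finset.mem_union_left _ hi)).symm)
  have hprem : ∀ u ∈ q.prem, FreeGroup.lift a' u = 1 := by
    intro u hu
    rw [← ha u hu]
    exact hS _ H a' a (fun i hi => haa i (Finset.mem_union_right _
      (Finset.mem_biUnion.2 ⟨u, List.mem_toFinset.2 hu, hi⟩)))
  rw [hconcl]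
  -- the finitely generated subgroup
  let G₀ : Subgroup G := Subgroup.closure (b '' (F : Set ℕ))
  have hfg : Group.FG G₀ := by
    rw [Group.fg_iff_subgroup_fg]
    exact ⟨F.image b, by simp [G₀]⟩
  have hb : ∀ i, b i ∈ G₀ := by
    intro i
    by_cases hi : i ∈ F
    · exact Subgroup.subset_closure ⟨i, hi, rfl⟩
    · have : b i = 1 := by simp only [b, if_neg hi]
      rw [this]
      exact one_mem _
  have hW0 : Laws W G₀ := (hΦW G hΦ).subgroup G₀
  have hfin : Finite G₀ := hlf G₀ hW0
  let ψ : G₀ →* H := φ.comp G₀.subtype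
  have hAb : AbSyl W := fun G _ _ hG s hs Q hQ => hP W hC G hG s hs Q hQ
  have hquot : Quasi Φ (G₀ ⧸ ψ.ker) :=
    lf_finite_case T hAb hC hD _ G₀ rfl hW0 (hΦ.subgroup G₀) ψ.ker
  let b' : ℕ → G₀ ⧸ ψ.ker := fun i => QuotientGroup.mk' ψ.ker ⟨b i, hb i⟩
  let κ : G₀ ⧸ ψ.ker →* H := QuotientGroup.kerLift ψ
  have hκ : Function.Injective κ := QuotientGroup.kerLift_injective ψ
  have hκb : ∀ w, κ (FreeGroup.lift b' w) = FreeGroup.lift a' w := by
    intro w
    rw [← lift_comp]
    rfl
  have hfinal : FreeGroup.lift b' q.concl = 1 := by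
    apply hquot q hq
    intro u hu
    apply hκ
    rw [hκb, map_one]
    exact hprem u hu
  rw [← hκb, hfinal, map_one]

/-- in a soluble variety there are no non-abelian minimal normal subgroups. -/
theorem condD_of_soluble (W : Set (FreeGroup ℕ)) (hsol : Soluble W) : CondD W := by
  intro X _ _ hX P hP hPc
  exfalso
  obtain ⟨d, hd⟩ := hsol
  obtain ⟨hPn, hP0, hmin⟩ := hP
  have hcomm : (⁅P, P⁆ : Subgroup X) = P := by
    apply hmin
    · infer_instance
    · exact Subgroup.commutator_le_left P P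
    · intro h0
      apply hPc
      intro x hx y hy
      have h1 : ⁅x, y⁆ ∈ (⁅P, P⁆ : Subgroup X) := Subgroup.commutator_mem_commutator hx hy
      rw [h0, Subgroup.mem_bot, commutatorElement_eq_one_iff_mul_comm] at h1
      exact h1
  have hle : ∀ n, P ≤ derivedSeries X n := by
    intro n
    induction n with
    | zero => exact le_top
    | succ n ih =>
      calc P = ⁅P, P⁆ := hcomm.symm
        _ ≤ ⁅derivedSeries X n, derivedSeries X n⁆ := Subgroup.commutator_mono ih ih
        _ = derivedSeries X (n + 1) := rfl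
  have := hle d
  rw [hd X hX] at this
  exact hP0 (le_bot_iff.1 this)

theorem locFin_of_soluble (hF : TaskF) (W : Set (FreeGroup ℕ)) (hsol : Soluble W)
    (hexp : FinExp W) : LocFin W := by
  intro G _ _ hG
  obtain ⟨d, hd⟩ := hsol
  obtain ⟨n, hn, hexp⟩ := hexp
  exact hF d n hn G (hexp G hG) (hd G hG)

theorem final2 (T : AllTasks) (hP : TaskP) (hF : TaskF) (hN1 : TaskN1) (hN2 : TaskN2)
    (hN3 : TaskN3) (hsep : SepLemma) :
    (∀ W : Set (FreeGroup ℕ), Primitive W → FinExp W ∧ CondC W ∧ CondD W) ∧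
      (∀ W : Set (FreeGroup ℕ), LocFin W → (Primitive W ↔ CondC W ∧ CondD W)) ∧
      (∀ W : Set (FreeGroup ℕ), Soluble W → (Primitive W ↔ FinExp W ∧ CondC W)) := by
  have h1 : ∀ W : Set (FreeGroup ℕ), Primitive W → FinExp W ∧ CondC W ∧ CondD W :=
    fun W h => ⟨hN1 W h, hN2 W h, hN3 hsep W h⟩
  refine ⟨h1, fun W hW => ⟨fun h => (h1 W h).2, fun h => sufficiency2 T hP W hW h.1 h.2⟩,
    fun W hW => ⟨fun h => ⟨(h1 W h).1, (h1 W h).2.1⟩, fun h => ?_⟩⟩
  exact sufficiency2 T hP W (locFin_of_soluble hF W hW h.1) h.2 (condD_of_soluble W hW)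

end Pool.Agent.H862R3.Prim
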